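import Mathlib
import Pool.Agent.R320.IT.SqUp

set_option autoImplicit false

/-!
# Exact counts of the empty intervals above the squares in random models of the primes

The question is whether every interval `(n², n² + (log₂ n)²]` with `n` large contains a prime.
Consider a random set of integers which are decided one after the other; only integers coprime to a
fixed `Q` can be chosen, and the conditional probability of choosing `n + 1` (coprime to `Q`) given
the past is `(Q / φ(Q)) / D n`, where `D` varies slowly, `|D (n + 1) - D n| ≤ (K / n) |D n|`, and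
`D n - log n` converges almost surely, to a possibly random limit `C`.  (For `Q = 1`: Cramér's model,
`C = 0`, and the Hawkins random sieve, for which `C` is a non-degenerate random variable.)

We count the `n ≤ N` for which `(n², n² + h(n)]` contains no member.  For EVERY function `h ≥ 0` with
`h(n) / (log n)² → λ` finite this number is almost surely asymptotic to
`exp ((λ / 4) (C - Q / (2 φ(Q)))) ∑_{n ≤ N} exp (-h(n) / (2 log n))` if this series diverges, and
bounded if it converges.  For `h(n) = c (log n)²` the number is asymptotic to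
`exp ((c / 4) (C - Q / (2 φ(Q)))) N ^ (1 - c/2) / (1 - c/2)` if `c < 2` and to
`exp ((c / 4) (C - Q / (2 φ(Q)))) log N` if `c = 2`; for `c > 2` it is bounded.  The length of the
question, `(log₂ n)² = 2.08.. (log n)²`, is just above the critical one.
-/

open MeasureTheory Filter
open scoped Topology

namespace Pool.Agent.Results.MP_73869e_nt.ExactCountsAboveSquares

/-- `(n², n² + y]` contains no element of `S` -/
def Empty (S : Set ℕ) (n : ℕ) (y : ℝ) : Prop := ∀ m ∈ S, n ^ 2 < m → ((n ^ 2 : ℕ) : ℝ) + y < m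

/-- the number of the `n ≤ N` such that `(n², n² + h(n)]` contains no element of `S` -/
noncomputable def count (S : Set ℕ) (h : ℕ → ℝ) (N : ℕ) : ℕ := Set.ncard {n : ℕ | n ≤ N ∧ Empty S n (h n)}

/-- the terms of the test series -/
noncomputable def w (h : ℕ → ℝ) (n : ℕ) : ℝ := Real.exp (-(h n / (2 * Real.log n)))

lemma logb_c (n : ℕ) : Real.logb 2 n ^ 2 = 1 / Real.log 2 ^ 2 * Real.log n ^ 2 := by
  unfold Real.logb
  ring

lemma two_lt : (2 : ℝ) < 1 / Real.log 2 ^ 2 := by
  have h1 := Real.log_two_lt_d9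
  have h2 := Real.log_two_gt_d9
  rw [lt_div_iff₀ (by positivity)]
  nlinarith

end Pool.Agent.Results.MP_73869e_nt.ExactCountsAboveSquares

open Pool.Agent.Results.MP_73869e_nt.ExactCountsAboveSquares

/-- Let `A n` be the event that `n` belongs to a random set adapted to a filtration `ℱ`, let
`Q ≥ 1`, let no integer which is not coprime to `Q` be chosen, and let, for `n ≥ n₀` with `n + 1`
coprime to `Q`, the conditional probability of `A (n + 1)` given `ℱ n` be `(Q / φ(Q)) / D n`, where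
`D n` is `ℱ n`-measurable, `|D (n + 1) - D n| ≤ (K / n) |D n|` for `n ≥ n₀` and `D n - log n`
converges, almost surely.  Let `C` be the limit of `D n - log n`.

(1) Let `h(n) ≥ 0` and `h(n) / (log n)² → λ`.  Then almost surely: if `∑ w(n)` diverges, the number
of the `n ≤ N` for which `(n², n² + h(n)]` contains no member, divided by `∑_{n ≤ N} w(n)`, tends to
`exp ((λ / 4) (C - Q / (2 φ(Q))))`; if it converges, `(n², n² + h(n)]` contains a member for all
large `n`.

(2) Let `c ≥ 0`.  Almost surely the number of the `n ≤ N` for which `(n², n² + c (log n)²]` contains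
no member, divided by `N ^ (1 - c/2) / (1 - c/2)` if `c < 2` and by `log N` if `c = 2`, tends to
`exp ((c / 4) (C - Q / (2 φ(Q))))`; if `c > 2`, these intervals contain a member for all large `n`.

(3) Almost surely `(n², n² + (log₂ n)²]` contains a member for all large `n`. -/
theorem Pool.Agent.Results.MP_73869e_nt.ExactCountsAboveSquares.result
    {Ω : Type} [mΩ : MeasurableSpace Ω] (μ : Measure Ω) [IsProbabilityMeasure μ]
    (ℱ : Filtration ℕ mΩ) (A : ℕ → Set Ω) (hA : ∀ n, MeasurableSet[ℱ n] (A n))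
    (Q : ℕ) (hQ : 0 < Q) (hcop : ∀ n, ¬ Nat.Coprime n Q → A n = ∅)
    (D : ℕ → Ω → ℝ) (hD : ∀ n, StronglyMeasurable[ℱ n] (D n)) (K : ℝ) (n₀ : ℕ)
    (hK : ∀ᵐ ω ∂μ, ∀ n, n₀ ≤ n → |D (n + 1) ω - D n ω| ≤ K / n * |D n ω|)
    (hd : ∀ᵐ ω ∂μ, ∀ n, n₀ ≤ n → Nat.Coprime (n + 1) Q →
      (μ[(A (n + 1)).indicator (fun _ => (1 : ℝ)) | ℱ n]) ω = (Q : ℝ) / Nat.totient Q / D n ω)
    (hC : ∀ᵐ ω ∂μ, ∃ C : ℝ, Tendsto (fun n : ℕ => D n ω - Real.log n) atTop (𝓝 C)) :
    (∀ (h : ℕ → ℝ) (lam : ℝ), (∀ n, 0 ≤ h n) → Tendsto (fun n : ℕ => h n / Real.log n ^ 2) atTop (𝓝 lam) →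
      ∀ᵐ ω ∂μ, ∃ C : ℝ, Tendsto (fun n : ℕ => D n ω - Real.log n) atTop (𝓝 C) ∧
        (¬ Summable (w h) →
          Tendsto (fun N : ℕ => (count {k | ω ∈ A k} h N : ℝ) / ∑ n ∈ Finset.range (N + 1), w h n) atTop
            (𝓝 (Real.exp (lam / 4 * (C - (Q : ℝ) / Nat.totient Q / 2))))) ∧
        (Summable (w h) → ∀ᶠ n : ℕ in atTop, ¬ Empty {k | ω ∈ A k} n (h n))) ∧
    (∀ c : ℝ, 0 ≤ c → ∀ᵐ ω ∂μ, ∃ C : ℝ, Tendsto (fun n : ℕ => D n ω - Real.log n) atTop (𝓝 C) ∧
      (c < 2 → Tendsto (fun N : ℕ => (count {k | ω ∈ A k} (fun n => c * Real.log n ^ 2) N : ℝ) /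
        ((N : ℝ) ^ (1 - c / 2) / (1 - c / 2))) atTop
          (𝓝 (Real.exp (c / 4 * (C - (Q : ℝ) / Nat.totient Q / 2))))) ∧
      (c = 2 → Tendsto (fun N : ℕ => (count {k | ω ∈ A k} (fun n => c * Real.log n ^ 2) N : ℝ) /
        Real.log N) atTop (𝓝 (Real.exp (c / 4 * (C - (Q : ℝ) / Nat.totient Q / 2))))) ∧
      (2 < c → ∀ᶠ n : ℕ in atTop, ¬ Empty {k | ω ∈ A k} n (c * Real.log n ^ 2))) ∧
    ∀ᵐ ω ∂μ, ∀ᶠ n : ℕ in atTop, ¬ Empty {k | ω ∈ A k} n (Real.logb 2 n ^ 2) := by
  refine ⟨fun h lam h0 hh => ?_, fun c hc => ?_, ?_⟩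
  · filter_upwards [hC, Pool.Agent.R320.IT.squaresUp (μ := μ) (ℱ := ℱ) (A := A) hA hQ hcop hD hK hd h0 hh]
      with ω ⟨C, hC⟩ h
    obtain ⟨h1, h2⟩ := h C hC
    exact ⟨C, hC, h1, h2⟩
  · filter_upwards [hC, Pool.Agent.R320.IT.squares_c (μ := μ) (ℱ := ℱ) (A := A) hA hQ hcop hD hK hd hc]
      with ω ⟨C, hC⟩ h
    obtain ⟨h1, h2, h3⟩ := h C hC
    exact ⟨C, hC, h1, h2, h3⟩
  · filter_upwards [hC, Pool.Agent.R320.IT.squares_c (μ := μ) (ℱ := ℱ) (A := A) hA hQ hcop hD hK hd
      (c := 1 / Real.log 2 ^ 2) (by positivity)] with ω ⟨C, hC⟩ h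
    obtain ⟨_, _, h3⟩ := h C hC
    filter_upwards [h3 two_lt] with n hn
    rw [logb_c]
    exact hn
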