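import Pool.Agent.Y749.AH.Main

/-!
# Distant pairs of zeros do not favour a coset of a lattice coarser than `(1/2) ℤ`

Assume the Riemann hypothesis and let `s > 1/2`.  There are `ε > 0` and `R₀` such that for every
`R ≥ R₀` and every real `a` (the window `[a, a + R]` may be anywhere, with respect to the mean
spacing) and all large `T`: for every real `b` at least `ε R N(T)` pairs of ordinates up to `T` have
their normalised difference in `[a, a + R]` and at a distance at least `ε` from `b + s ℤ`.  Montgomery's
conjecture predicts about `R N(T)` pairs in the window, spread almost uniformly.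

Idea of the proof.  If almost all the differences in some long window were near `b + s ℤ`, the form
factor, which is nonnegative and has mass one at the origin, would have mass one at the
frequency `1 / s` too, hence period `1 / s < 2`; this contradicts Montgomery's theorem
(form factor `|α|` on `(-1, 1)`).
-/

open Filter

namespace Pool.Agent.Results.MP_8958e8_nt.FarWindowPairs

/-- multiplicity of `s` as a zero of the Riemann zeta function (order of vanishing at `s`) -/
noncomputable def zmult (s : ℂ) : ℕ := analyticOrderNatAt riemannZeta s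

/-- the number of nontrivial zeros of `ζ` with ordinate in `(0, t]`, with multiplicity -/
noncomputable def NZ (t : ℝ) : ℕ :=
  ∑ᶠ s ∈ {s : ℂ | riemannZeta s = 0 ∧ 0 < s.re ∧ s.re < 1 ∧ 0 < s.im ∧ s.im ≤ t}, zmult s

/-- for `j ≥ 1`: the `j`-th positive ordinate `γ j` of a nontrivial zero of `ζ`, the ordinates being
listed in nondecreasing order and repeated according to multiplicity -/
noncomputable def γ (j : ℕ) : ℝ := sInf {t : ℝ | j ≤ NZ t}

/-- the normalised difference `(γ_i - γ_j) log T / 2π` -/
noncomputable def x (T : ℝ) (i j : ℕ) : ℝ := (γ i - γ j) * Real.log T / (2 * Real.pi)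

/-- the number of ordered pairs of ordinates up to `T` with normalised difference in `[a, a + R]` and
at a distance at least `ε` from all the numbers `b + k s`, `k` an integer -/
noncomputable def W (T a R b s ε : ℝ) : ℕ :=
  {p : ℕ × ℕ | (1 ≤ p.1 ∧ p.1 ≤ NZ T) ∧ (1 ≤ p.2 ∧ p.2 ≤ NZ T) ∧
    a ≤ x T p.1 p.2 ∧ x T p.1 p.2 ≤ a + R ∧ ∀ k : ℤ, ε ≤ |x T p.1 p.2 - b - k * s|}.ncard

/-- On the Riemann hypothesis: for every `s > 1/2` there are `ε > 0` and `R₀` such that for all real
`a` and `R ≥ R₀`, all large `T` and all real `b` at least `ε R N(T)` pairs of ordinates up to `T` have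
their normalised difference in `[a, a + R]` and at a distance at least `ε` from `b + s ℤ`. -/
theorem result (hRH : RiemannHypothesis) (s : ℝ) (hs : 1 / 2 < s) :
    ∃ ε R0 : ℝ, 0 < ε ∧ 0 < R0 ∧ ∀ R a : ℝ, R0 ≤ R → ∀ᶠ T : ℝ in atTop, ∀ b : ℝ,
      ε * R * (NZ T : ℝ) ≤ (W T a R b s ε : ℝ) := by
  obtain ⟨ε, R0, h1, h2, -, -, h3⟩ := Pool.Agent.Y749.AH.M.mainX hRH hs
  exact ⟨ε, R0, h1, h2, h3⟩

end Pool.Agent.Results.MP_8958e8_nt.FarWindowPairs
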