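import Pool.Agent.R320.VQ.Conv

/-!
# All moments of sums of consecutive unfolded gaps of zeta zeros, under RH

The sum `δ_n + ... + δ_{n+r-1}` of `r` consecutive unfolded gaps has mean value `r`.  Assume the
Riemann hypothesis.  We prove that the centred and scaled sums
`(δ_n + ... + δ_{n+r-1} - r) / (√(log r) / π)` converge to the standard normal law together with
all their moments: the mean over `n ≤ N` of every continuous function of polynomial growth converges
to its Gaussian expectation, uniformly for `r log r ≤ log N`, `r → ∞`.  In particular the variance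
of the sum of `r` consecutive unfolded gaps is asymptotically `(log r) / π²`, the value of the GUE
(for independent gaps it would be of order `r`).
-/

open Filter MeasureTheory

namespace Pool.Agent.R320.Var.GapSumMoments

/-- multiplicity of `s` as a zero of the Riemann zeta function (order of vanishing at `s`) -/
noncomputable def zmult (s : ℂ) : ℕ := analyticOrderNatAt riemannZeta s

/-- the number of nontrivial zeros of `ζ` with ordinate in `(0, t]`, with multiplicity -/
noncomputable def NZ (t : ℝ) : ℕ :=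
  ∑ᶠ s ∈ {s : ℂ | riemannZeta s = 0 ∧ 0 < s.re ∧ s.re < 1 ∧ 0 < s.im ∧ s.im ≤ t}, zmult s

/-- for `n ≥ 1`: the `n`-th positive ordinate `γ n` of a nontrivial zero of `ζ`, the ordinates being
listed in nondecreasing order and repeated according to multiplicity -/
noncomputable def γ (n : ℕ) : ℝ := sInf {t : ℝ | n ≤ NZ t}

/-- the unfolded consecutive gaps `δ_n = (γ_{n+1} - γ_n) / 2π · log (γ_n / 2π)` -/
noncomputable def δ (n : ℕ) : ℝ := (γ (n + 1) - γ n) / (2 * Real.pi) * Real.log (γ n / (2 * Real.pi))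

/-- the centred sum of `r` consecutive unfolded gaps, `δ_n + ... + δ_{n+r-1} - r` -/
noncomputable def D (r n : ℕ) : ℝ := ∑ i ∈ Finset.range r, δ (n + i) - r

/-- the standard normal law -/
noncomputable def normal : Measure ℝ := ProbabilityTheory.gaussianReal 0 1

lemma rhs_of (hRH : RiemannHypothesis) : SP.RHs := by
  intro s h0 h1 hz
  apply hRH s hz
  · rintro ⟨n, hn⟩
    rw [hn] at h0
    simp at h0
    have : (0 : ℝ) ≤ n := Nat.cast_nonneg n
    linarith
  · intro h
    rw [h] at h1
    simp at h1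

/-- **All moments of sums of consecutive unfolded gaps (RH).**  For every continuous `f` of
polynomial growth and `ε > 0` there is `r₀` such that for all `r ≥ r₀` and all `N ≥ 1` with
`r log r ≤ log N` the mean over `n ≤ N` of `f ((δ_n + ... + δ_{n+r-1} - r) / (√(log r) / π))`
differs from the Gaussian expectation of `f` by at most `ε`. -/
theorem result (hRH : RiemannHypothesis) (f : ℝ → ℝ) (hf : Continuous f) (A : ℝ) (p : ℕ)
    (hfA : ∀ x, |f x| ≤ A * (1 + |x|) ^ p) (ε : ℝ) (hε : 0 < ε) :
    ∃ r₀ : ℕ, ∀ r : ℕ, r₀ ≤ r → ∀ N : ℕ, 1 ≤ N → r * Real.log r ≤ Real.log N →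
      |(∑ n ∈ Finset.Icc 1 N, f (D r n / (Real.sqrt (Real.log r) / Real.pi))) / N -
        ∫ x, f x ∂normal| ≤ ε := by
  obtain ⟨r₀, h⟩ := (Pool.Agent.R320.VQ.conv (rhs_of hRH) f hf A p hfA ε hε).exists_forall_of_atTop
  refine ⟨r₀, fun r hr N hN hrN => ?_⟩
  have h1 := h r hr N hN hrN
  have hN0 : (0 : ℝ) < N := by exact_mod_cast hN
  rw [div_sub' hN0.ne', abs_div, abs_of_pos hN0, div_le_iff₀ hN0]
  have e2 : (N : ℝ) * ∫ x, f x ∂normal = (∫ x, f x ∂Pool.Agent.Y743.CL.gs) * N := mul_comm _ _
  rw [e2]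
  exact h1

/-- The special case `f x = x ^ 2`: the variance of the sum of `r` consecutive unfolded gaps is
asymptotically `(log r) / π²`. -/
theorem variance (hRH : RiemannHypothesis) (ε : ℝ) (hε : 0 < ε) :
    ∃ r₀ : ℕ, ∀ r : ℕ, r₀ ≤ r → ∀ N : ℕ, 1 ≤ N → r * Real.log r ≤ Real.log N →
      |(∑ n ∈ Finset.Icc 1 N, D r n ^ 2) / N - Real.log r / Real.pi ^ 2| ≤ ε * Real.log r := by
  have hpi := Real.pi_pos
  obtain ⟨r₀, h⟩ := result hRH (fun x => x ^ 2) (by fun_prop) 1 2 (fun x => by
    rw [one_mul, abs_pow]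
    exact pow_le_pow_left₀ (abs_nonneg _) (by linarith) 2) (ε * Real.pi ^ 2) (by positivity)
  refine ⟨max r₀ 3, fun r hr N hN hrN => ?_⟩
  have h1 := h r ((le_max_left _ _).trans hr) N hN hrN
  have hr3 : 3 ≤ r := (le_max_right _ _).trans hr
  have hr3' : (3 : ℝ) ≤ r := by exact_mod_cast hr3
  have hlog : 0 < Real.log r := Real.log_pos (by linarith)
  have hint : ∫ x, x ^ 2 ∂normal = 1 := by
    have h2 := ProbabilityTheory.variance_fun_id_gaussianReal (μ := 0) (v := 1)
    rw [ProbabilityTheory.variance_of_integral_eq_zero (by fun_prop)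
      ProbabilityTheory.integral_id_gaussianReal] at h2
    unfold normal
    simpa using h2
  rw [hint] at h1
  have hN0 : (0 : ℝ) < N := by exact_mod_cast hN
  have e1 : ∑ n ∈ Finset.Icc 1 N, (D r n / (Real.sqrt (Real.log r) / Real.pi)) ^ 2 =
      Real.pi ^ 2 / Real.log r * ∑ n ∈ Finset.Icc 1 N, D r n ^ 2 := by
    rw [Finset.mul_sum]
    refine Finset.sum_congr rfl fun n _ => ?_
    rw [div_pow, div_pow, Real.sq_sqrt hlog.le]
    field_simp
  rw [e1] at h1
  have e2 : (∑ n ∈ Finset.Icc 1 N, D r n ^ 2) / N - Real.log r / Real.pi ^ 2 =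
      Real.log r / Real.pi ^ 2 * ((Real.pi ^ 2 / Real.log r * ∑ n ∈ Finset.Icc 1 N, D r n ^ 2) / N - 1) := by
    field_simp
  rw [e2, abs_mul, abs_of_pos (by positivity)]
  calc Real.log r / Real.pi ^ 2 *
      |(Real.pi ^ 2 / Real.log r * ∑ n ∈ Finset.Icc 1 N, D r n ^ 2) / N - 1| ≤
      Real.log r / Real.pi ^ 2 * (ε * Real.pi ^ 2) := mul_le_mul_of_nonneg_left h1 (by positivity)
    _ = ε * Real.log r := by field_simp

end Pool.Agent.R320.Var.GapSumMoments
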