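import Pool.Agent.R320.CL.Asm

/-!
# The normal law for sums of consecutive unfolded gaps of zeta zeros, unconditionally

The sum `δ_n + ... + δ_{n+r-1}` of `r` consecutive unfolded gaps has mean value `r`.  We prove,
without any hypothesis, that as `r → ∞` its distribution is asymptotically normal with mean `r` and
variance `(log r) / π²`, as for the eigenvalues of the GUE (and very different from independent
gaps, where the variance would be of order `r`).  The number `N` of gaps only has to satisfy
`r log r ≤ log N`; in particular one may let first `N → ∞` and then `r → ∞`.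
-/

open Filter

namespace Pool.Agent.R320.Var.GapSumsNormalLaw

/-- multiplicity of `s` as a zero of the Riemann zeta function (order of vanishing at `s`) -/
noncomputable def zmult (s : ℂ) : ℕ := analyticOrderNatAt riemannZeta s

/-- the number of nontrivial zeros of `ζ` with ordinate in `(0, t]`, with multiplicity -/
noncomputable def NZ (t : ℝ) : ℕ :=
  ∑ᶠ s ∈ {s : ℂ | riemannZeta s = 0 ∧ 0 < s.re ∧ s.re < 1 ∧ 0 < s.im ∧ s.im ≤ t}, zmult s

/-- for `n ≥ 1`: the `n`-th positive ordinate `γ n` of a nontrivial zero of `ζ`, the ordinates being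
listed in nondecreasing order and repeated according to multiplicity -/
noncomputable def γ (n : ℕ) : ℝ := sInf {t : ℝ | n ≤ NZ t}

/-- the unfolded consecutive gaps `δ_n = (γ_{n+1} - γ_n) / 2π · log (γ_n / 2π)` -/
noncomputable def δ (n : ℕ) : ℝ := (γ (n + 1) - γ n) / (2 * Real.pi) * Real.log (γ n / (2 * Real.pi))

/-- the distribution function of the standard normal law -/
noncomputable def Φ (x : ℝ) : ℝ := (ProbabilityTheory.gaussianReal 0 1 (Set.Iic x)).toReal

/-- **The normal law for sums of consecutive unfolded gaps (no hypothesis).**  For every `ε > 0`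
there is `r₀` such that for all `r ≥ r₀`, all `N ≥ 1` with `r log r ≤ log N` and all real `x`, the
proportion of the `n ≤ N` with `δ_n + ... + δ_{n+r-1} ≤ r + x √(log r) / π` differs from `Φ(x)` by
at most `ε`. -/
theorem result (ε : ℝ) (hε : 0 < ε) : ∃ r₀ : ℕ, ∀ r : ℕ, r₀ ≤ r → ∀ N : ℕ, 1 ≤ N →
    r * Real.log r ≤ Real.log N → ∀ x : ℝ,
    |({n : ℕ | 1 ≤ n ∧ n ≤ N ∧ ∑ i ∈ Finset.range r, δ (n + i) ≤
      r + x * (Real.sqrt (Real.log r) / Real.pi)}.ncard : ℝ) / N - Φ x| ≤ ε := by
  obtain ⟨r₀, h⟩ := (Pool.Agent.R320.CL.normal_unif ε hε).exists_forall_of_atTop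
  refine ⟨r₀, fun r hr N hN hrN x => ?_⟩
  have h1 := h r hr N hN hrN x
  have hN0 : (0 : ℝ) < N := by exact_mod_cast hN
  have e : {n : ℕ | 1 ≤ n ∧ n ≤ N ∧ ∑ i ∈ Finset.range r, δ (n + i) ≤
      r + x * (Real.sqrt (Real.log r) / Real.pi)} =
      ((Finset.Icc 1 N).filter (fun n => Pool.Agent.R320.CL.Ss x r n) : Finset ℕ) := by
    ext n
    simp only [Set.mem_setOf_eq, Finset.coe_filter, Finset.mem_Icc, and_assoc]
    rfl
  rw [e, Set.ncard_coe_finset, div_sub' hN0.ne', abs_div, abs_of_pos hN0, div_le_iff₀ hN0]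
  have e2 : (N : ℝ) * Φ x = Pool.Agent.Y743.CL.Ph x * N := mul_comm _ _
  rw [e2]
  exact h1

end Pool.Agent.R320.Var.GapSumsNormalLaw
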